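import Pool.Agent.Helper70.DK.Defs

/-! # E8: continuity of the conditional entropy in `L¹` -/

set_option autoImplicit false

namespace Pool.Agent.Helper70.DK

open Finset

/-- `a log (b / a)` -/
noncomputable def e8_L (a b : ℝ) : ℝ := a * Real.log b - a * Real.log a

theorem e8_L_zero (b : ℝ) : e8_L 0 b = 0 := by simp [e8_L]

theorem e8_L_self (b : ℝ) : e8_L b b = 0 := by simp [e8_L]

theorem e8_L_nonneg {a b : ℝ} (ha : 0 ≤ a) (hab : a ≤ b) : 0 ≤ e8_L a b := by
  unfold e8_L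
  rcases ha.eq_or_lt with h | h
  · rw [← h]; simp
  · have := Real.log_le_log h hab
    nlinarith

theorem e8_L_le {a b A B : ℝ} (ha : 0 ≤ a) (hb : 0 ≤ b) (hab : b = 0 → a = 0) (hA : 0 ≤ A) (hB : 0 < B)
    (hA0 : A = 0 → a = 0) :
    e8_L a b ≤ a * (Real.log B - Real.log A) + b * (A / B) - a := by
  rcases ha.eq_or_lt with h | h
  · rw [← h, e8_L_zero]
    have : 0 ≤ b * (A / B) := by positivity
    linarith
  · have hb' : 0 < b := by
      rcases hb.eq_or_lt with h1 | h1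
      · exact absurd (hab h1.symm) h.ne'
      · exact h1
    have hA' : 0 < A := by
      rcases hA.eq_or_lt with h1 | h1
      · exact absurd (hA0 h1.symm) h.ne'
      · exact h1
    have h1 := Real.log_le_sub_one_of_pos (show 0 < b * A / (a * B) by positivity)
    rw [Real.log_div (by positivity) (by positivity), Real.log_mul hb'.ne' hA'.ne',
      Real.log_mul h.ne' hB.ne'] at h1
    have h2 := mul_le_mul_of_nonneg_left h1 h.le
    have h3 : a * (b * A / (a * B) - 1) = b * (A / B) - a := by field_simp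
    rw [h3] at h2
    unfold e8_L
    nlinarith

/-- log-sum inequality -/
theorem e8_L_sum {ι : Type} (s : Finset ι) (a b : ι → ℝ) (ha : ∀ i ∈ s, 0 ≤ a i) (hb : ∀ i ∈ s, 0 ≤ b i)
    (hab : ∀ i ∈ s, b i = 0 → a i = 0) :
    ∑ i ∈ s, e8_L (a i) (b i) ≤ e8_L (∑ i ∈ s, a i) (∑ i ∈ s, b i) := by
  have hA : 0 ≤ ∑ i ∈ s, a i := sum_nonneg ha
  rcases (sum_nonneg hb).eq_or_lt with hB | hB
  · have h0 : ∀ i ∈ s, b i = 0 := (sum_eq_zero_iff_of_nonneg hb).mp hB.symm
    have h1 : ∀ i ∈ s, a i = 0 := fun i hi => hab i hi (h0 i hi)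
    rw [sum_congr rfl (fun i hi => by rw [h1 i hi, e8_L_zero]), sum_const_zero, sum_congr rfl h1,
      sum_const_zero, e8_L_zero]
  · have h2 : ∀ i ∈ s, e8_L (a i) (b i) ≤ a i * (Real.log (∑ j ∈ s, b j) - Real.log (∑ j ∈ s, a j)) +
        b i * ((∑ j ∈ s, a j) / ∑ j ∈ s, b j) - a i := by
      intro i hi
      apply e8_L_le (ha i hi) (hb i hi) (hab i hi) hA hB
      intro h0
      exact (sum_eq_zero_iff_of_nonneg ha).mp h0 i hi
    refine le_trans (sum_le_sum h2) (le_of_eq ?_)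
    rw [sum_sub_distrib, sum_add_distrib, ← sum_mul, ← sum_mul]
    unfold e8_L
    field_simp
    ring

theorem e8_L_add {a b a' b' : ℝ} (ha : 0 ≤ a) (hb : 0 ≤ b) (hab : b = 0 → a = 0) (ha' : 0 ≤ a')
    (hb' : 0 ≤ b') (hab' : b' = 0 → a' = 0) : e8_L a b + e8_L a' b' ≤ e8_L (a + a') (b + b') := by
  have := e8_L_sum (univ : Finset Bool) (fun i => if i then a else a') (fun i => if i then b else b')
    (by intro i _; cases i <;> simpa) (by intro i _; cases i <;> simpa)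
    (by intro i _; cases i <;> simpa)
  simpa using this

/-- entropy is at most the logarithm of the number of atoms -/
theorem e8_sum_le {ι : Type} (s : Finset ι) (a : ι → ℝ) (ha : ∀ i ∈ s, 0 ≤ a i) :
    ∑ i ∈ s, e8_L (a i) (∑ j ∈ s, a j) ≤ (∑ j ∈ s, a j) * Real.log s.card := by
  obtain ⟨A, hA⟩ : ∃ A, A = ∑ j ∈ s, a j := ⟨_, rfl⟩
  rw [← hA]
  have hA0 : 0 ≤ A := by rw [hA]; exact sum_nonneg ha
  rcases hA0.eq_or_lt with h | h
  · have h0 : ∀ i ∈ s, a i = 0 := by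
      apply (sum_eq_zero_iff_of_nonneg ha).mp
      rw [← hA, ← h]
    rw [sum_congr rfl (fun i hi => by rw [h0 i hi, e8_L_zero]), sum_const_zero, ← h]; simp
  · have hs : 0 < (s.card : ℝ) := by
      have : s.Nonempty := by
        rw [nonempty_iff_ne_empty]
        intro h1
        rw [h1, sum_empty] at hA
        linarith
      exact_mod_cast this.card_pos
    have h1 := e8_L_sum s a (fun _ => A / s.card) ha (fun _ _ => by positivity)
      (fun i _ h1 => absurd h1 (by positivity))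
    have h2 : ∀ i ∈ s, e8_L (a i) A = e8_L (a i) (A / s.card) + a i * Real.log s.card := by
      intro i _
      unfold e8_L
      rw [Real.log_div h.ne' hs.ne']; ring
    rw [sum_congr rfl h2, sum_add_distrib, ← sum_mul, ← hA]
    rw [← hA, sum_const, nsmul_eq_mul, mul_div_cancel₀ _ hs.ne', e8_L_self] at h1
    linarith

/-- subadditivity in the first argument -/
theorem e8_L_sub {a a' Y : ℝ} (ha : 0 ≤ a) (ha' : 0 ≤ a') :
    e8_L (a + a') Y ≤ e8_L a Y + e8_L a' Y := by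
  unfold e8_L
  have h1 : a * Real.log a ≤ a * Real.log (a + a') := by
    rcases ha.eq_or_lt with h | h
    · rw [← h]; simp
    · exact mul_le_mul_of_nonneg_left (Real.log_le_log h (by linarith)) ha
  have h2 : a' * Real.log a' ≤ a' * Real.log (a + a') := by
    rcases ha'.eq_or_lt with h | h
    · rw [← h]; simp
    · exact mul_le_mul_of_nonneg_left (Real.log_le_log h (by linarith)) ha'
  have h3 : (a + a') * Real.log (a + a') = a * Real.log (a + a') + a' * Real.log (a + a') := by ring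
  have h4 : (a + a') * Real.log Y = a * Real.log Y + a' * Real.log Y := by ring
  linarith

section

open Classical in
/-- marginal -/
noncomputable def e8_y {δ γ : Type} (T : Finset δ) (π : δ → γ) (x : δ → ℝ) (c : γ) : ℝ :=
  ∑ v ∈ T.filter (fun v => π v = c), x v

/-- conditional entropy of a mass distribution -/
noncomputable def e8_H {δ γ : Type} (T : Finset δ) (π : δ → γ) (x : δ → ℝ) : ℝ :=
  ∑ u ∈ T, e8_L (x u) (e8_y T π x (π u))

variable {δ γ : Type} (T : Finset δ) (π : δ → γ)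

theorem e8_y_add (x x' : δ → ℝ) (c : γ) :
    e8_y T π (fun u => x u + x' u) c = e8_y T π x c + e8_y T π x' c := by
  unfold e8_y
  exact sum_add_distrib

theorem e8_y_nonneg (x : δ → ℝ) (hx : ∀ u ∈ T, 0 ≤ x u) (c : γ) : 0 ≤ e8_y T π x c := by
  classical
  unfold e8_y
  exact sum_nonneg (fun u hu => hx u (mem_filter.1 hu).1)

theorem e8_le_y (x : δ → ℝ) (hx : ∀ u ∈ T, 0 ≤ x u) (u : δ) (hu : u ∈ T) : x u ≤ e8_y T π x (π u) := by
  classical
  unfold e8_y
  exact single_le_sum (f := x) (fun v hv => hx v (mem_filter.1 hv).1) (mem_filter.2 ⟨hu, rfl⟩)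

theorem e8_y_zero (x : δ → ℝ) (hx : ∀ u ∈ T, 0 ≤ x u) (u : δ) (hu : u ∈ T) (h : e8_y T π x (π u) = 0) :
    x u = 0 :=
  le_antisymm (h ▸ e8_le_y T π x hx u hu) (hx u hu)

theorem e8_H_super (x x' : δ → ℝ) (hx : ∀ u ∈ T, 0 ≤ x u) (hx' : ∀ u ∈ T, 0 ≤ x' u) :
    e8_H T π x + e8_H T π x' ≤ e8_H T π (fun u => x u + x' u) := by
  unfold e8_H
  rw [← sum_add_distrib]
  refine sum_le_sum (fun u hu => ?_)
  rw [e8_y_add]
  exact e8_L_add (hx u hu) (e8_y_nonneg T π x hx _) (e8_y_zero T π x hx u hu)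
    (hx' u hu) (e8_y_nonneg T π x' hx' _) (e8_y_zero T π x' hx' u hu)

theorem e8_H_nonneg (x : δ → ℝ) (hx : ∀ u ∈ T, 0 ≤ x u) : 0 ≤ e8_H T π x :=
  sum_nonneg (fun u hu => e8_L_nonneg (hx u hu) (e8_le_y T π x hx u hu))

open Classical in
theorem e8_fiber (x : δ → ℝ) (g : γ → ℝ) :
    ∑ u ∈ T, x u * g (π u) = ∑ c ∈ T.image π, e8_y T π x c * g c := by
  rw [← sum_fiberwise_of_maps_to (s := T) (t := T.image π) (g := π)
    (fun u hu => mem_image_of_mem π hu) (fun u => x u * g (π u))]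
  refine sum_congr rfl (fun c _ => ?_)
  unfold e8_y
  rw [sum_mul]
  refine sum_congr rfl (fun u hu => ?_)
  rw [(mem_filter.1 hu).2]

open Classical in
theorem e8_tot (x : δ → ℝ) : ∑ c ∈ T.image π, e8_y T π x c = ∑ u ∈ T, x u := by
  unfold e8_y
  exact sum_fiberwise_of_maps_to (s := T) (t := T.image π) (g := π)
    (fun u hu => mem_image_of_mem π hu) x

theorem e8_corr (x x' : δ → ℝ) (hx : ∀ u ∈ T, 0 ≤ x u) (hx' : ∀ u ∈ T, 0 ≤ x' u) :
    ∑ u ∈ T, x u * (Real.log (e8_y T π (fun u => x u + x' u) (π u)) - Real.log (e8_y T π x (π u))) ≤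
      e8_L (∑ u ∈ T, x u) (∑ u ∈ T, x u + ∑ u ∈ T, x' u) := by
  classical
  rw [e8_fiber T π x (fun c => Real.log (e8_y T π (fun u => x u + x' u) c) - Real.log (e8_y T π x c))]
  have h1 : ∀ c ∈ T.image π, e8_y T π x c * (Real.log (e8_y T π (fun u => x u + x' u) c) -
      Real.log (e8_y T π x c)) = e8_L (e8_y T π x c) (e8_y T π (fun u => x u + x' u) c) := by
    intro c _
    unfold e8_L
    ring
  rw [sum_congr rfl h1]
  have h2 := e8_L_sum (T.image π) (fun c => e8_y T π x c) (fun c => e8_y T π (fun u => x u + x' u) c)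
    (fun c _ => e8_y_nonneg T π x hx c)
    (fun c _ => by
      show 0 ≤ e8_y T π (fun u => x u + x' u) c
      rw [e8_y_add]
      exact add_nonneg (e8_y_nonneg T π x hx c) (e8_y_nonneg T π x' hx' c))
    (fun c _ h => by
      have h' : e8_y T π (fun u => x u + x' u) c = 0 := h
      rw [e8_y_add] at h'
      show e8_y T π x c = 0
      linarith [e8_y_nonneg T π x hx c, e8_y_nonneg T π x' hx' c])
  rw [e8_tot, e8_tot, sum_add_distrib] at h2
  exact h2

theorem e8_H_sub (x x' : δ → ℝ) (hx : ∀ u ∈ T, 0 ≤ x u) (hx' : ∀ u ∈ T, 0 ≤ x' u) :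
    e8_H T π (fun u => x u + x' u) ≤ e8_H T π x + e8_H T π x' +
      e8_L (∑ u ∈ T, x u) (∑ u ∈ T, x u + ∑ u ∈ T, x' u) +
      e8_L (∑ u ∈ T, x' u) (∑ u ∈ T, x u + ∑ u ∈ T, x' u) := by
  have h1 := e8_corr T π x x' hx hx'
  have h2 := e8_corr T π x' x hx' hx
  have hcomm : (fun u => x' u + x u) = (fun u => x u + x' u) := by
    funext u
    exact add_comm _ _
  rw [hcomm, add_comm (∑ u ∈ T, x' u) (∑ u ∈ T, x u)] at h2
  have h3 : e8_H T π (fun u => x u + x' u) ≤ ∑ u ∈ T,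
      ((e8_L (x u) (e8_y T π x (π u)) +
        x u * (Real.log (e8_y T π (fun u => x u + x' u) (π u)) - Real.log (e8_y T π x (π u)))) +
      (e8_L (x' u) (e8_y T π x' (π u)) +
        x' u * (Real.log (e8_y T π (fun u => x u + x' u) (π u)) - Real.log (e8_y T π x' (π u))))) := by
    unfold e8_H
    refine sum_le_sum (fun u hu => ?_)
    refine le_trans (e8_L_sub (hx u hu) (hx' u hu)) (le_of_eq ?_)
    unfold e8_L
    ring
  rw [sum_add_distrib, sum_add_distrib, sum_add_distrib] at h3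
  unfold e8_H at h3 ⊢
  linarith

theorem e8_H_le (x : δ → ℝ) (hx : ∀ u ∈ T, 0 ≤ x u) (K : ℕ)
    (hcard : ∀ c, (fib T π c).card ≤ K) : e8_H T π x ≤ (∑ u ∈ T, x u) * Real.log K := by
  classical
  unfold e8_H
  rw [← sum_fiberwise_of_maps_to (s := T) (t := T.image π) (g := π)
    (fun u hu => mem_image_of_mem π hu) (fun u => e8_L (x u) (e8_y T π x (π u)))]
  have h1 : ∀ c ∈ T.image π, ∑ u ∈ T.filter (fun u => π u = c), e8_L (x u) (e8_y T π x (π u)) ≤
      e8_y T π x c * Real.log K := by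
    intro c hc
    have h2 : ∑ u ∈ T.filter (fun u => π u = c), e8_L (x u) (e8_y T π x (π u)) =
        ∑ u ∈ T.filter (fun u => π u = c), e8_L (x u) (∑ v ∈ T.filter (fun v => π v = c), x v) := by
      refine sum_congr rfl (fun u hu => ?_)
      rw [(mem_filter.1 hu).2]
      rfl
    have h4 : e8_y T π x c = ∑ v ∈ T.filter (fun v => π v = c), x v := rfl
    rw [h2, h4]
    refine le_trans (e8_sum_le _ x (fun u hu => hx u (mem_filter.1 hu).1)) ?_
    refine mul_le_mul_of_nonneg_left ?_ (sum_nonneg (fun u hu => hx u (mem_filter.1 hu).1))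
    obtain ⟨u, hu, huc⟩ := mem_image.1 hc
    have h5 : (T.filter (fun u => π u = c)).card = (fib T π c).card := rfl
    have h6 : 0 < (T.filter (fun u => π u = c)).card := card_pos.2 ⟨u, mem_filter.2 ⟨hu, huc⟩⟩
    refine Real.log_le_log (by exact_mod_cast h6) ?_
    rw [h5]
    exact_mod_cast hcard c
  refine le_trans (sum_le_sum h1) (le_of_eq ?_)
  rw [← sum_mul, e8_tot]

end

/-! ### laws -/

theorem e8_mem_fib {Ω δ : Type} {S : Finset Ω} {g : Ω → δ} {c : δ} {ω : Ω} :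
    ω ∈ fib S g c ↔ ω ∈ S ∧ g ω = c := by
  classical
  unfold fib
  rw [mem_filter]

theorem e8_filter {Ω δ : Type} (S : Finset Ω) (g : Ω → δ) (c : δ) [DecidablePred (fun ω => g ω = c)] :
    S.filter (fun ω => g ω = c) = fib S g c := by
  ext ω
  rw [e8_mem_fib, mem_filter]

open Classical in
/-- mass of a fibre of `h` -/
noncomputable def e8_m {α δ : Type} (Z : Finset α) (h : α → δ) (p : α → ℝ) (u : δ) : ℝ :=
  ∑ z ∈ Z.filter (fun z => h z = u), p z

open Classical in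
theorem e8_card {Ω δ γ : Type} (S : Finset Ω) (k : Ω → δ) (T : Finset δ) (π : δ → γ) (hT : ∀ ω ∈ S, k ω ∈ T)
    (c : γ) : ∑ v ∈ T.filter (fun v => π v = c), (fib S k v).card = (fib S (fun ω => π (k ω)) c).card := by
  have h1 := card_eq_sum_card_fiberwise (s := fib S (fun ω => π (k ω)) c)
    (t := T.filter (fun v => π v = c)) (f := k) (by
      intro ω hω
      have h2 := mem_filter.1 (show ω ∈ S.filter (fun ω => π (k ω) = c) from hω)
      exact mem_coe.2 (mem_filter.2 ⟨hT ω h2.1, h2.2⟩))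
  rw [h1]
  refine sum_congr rfl (fun v hv => ?_)
  congr 1
  unfold fib
  ext ω
  have hv2 := (mem_filter.1 hv).2
  simp only [mem_filter]
  constructor
  · intro h
    exact ⟨⟨h.1, by rw [h.2]; exact hv2⟩, h.2⟩
  · intro h
    exact ⟨h.1.1, h.2⟩

theorem e8_m_law {Ω α δ : Type} (S : Finset Ω) (f : Ω → α) (Z : Finset α) (hZ : ∀ ω ∈ S, f ω ∈ Z)
    (h : α → δ) (u : δ) : e8_m Z h (law S f) u = ((fib S (fun ω => h (f ω)) u).card : ℝ) / (S.card : ℝ) := by
  classical
  unfold e8_m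
  rw [← e8_card S f Z h hZ u]
  push_cast
  rw [sum_div]
  rfl

theorem e8_y_law {Ω δ γ : Type} (S : Finset Ω) (k : Ω → δ) (T : Finset δ) (π : δ → γ) (hT : ∀ ω ∈ S, k ω ∈ T)
    (c : γ) : e8_y T π (fun v => ((fib S k v).card : ℝ) / (S.card : ℝ)) c =
      ((fib S (fun ω => π (k ω)) c).card : ℝ) / (S.card : ℝ) := by
  classical
  unfold e8_y
  rw [← e8_card S k T π hT c]
  push_cast
  rw [sum_div]

theorem e8_ent {Ω α : Type} (S : Finset Ω) (f : Ω → α) : ent S f =
    (∑ ω ∈ S, (Real.log (S.card : ℝ) - Real.log ((fib S f (f ω)).card : ℝ))) / (S.card : ℝ) := rfl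

theorem e8_L_nat {N a b : ℕ} (hN : 0 < N) (hab : a ≤ b) :
    e8_L ((a : ℝ) / (N : ℝ)) ((b : ℝ) / (N : ℝ)) = (a : ℝ) * (Real.log b - Real.log a) / (N : ℝ) := by
  have hN' : (N : ℝ) ≠ 0 := by exact_mod_cast hN.ne'
  rcases Nat.eq_zero_or_pos a with h | h
  · rw [h]
    simp [e8_L]
  · have ha : (a : ℝ) ≠ 0 := by exact_mod_cast h.ne'
    have hb : (b : ℝ) ≠ 0 := by exact_mod_cast (lt_of_lt_of_le h hab).ne'
    unfold e8_L
    rw [Real.log_div ha hN', Real.log_div hb hN']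
    ring

theorem e8_cent {Ω α β γ : Type} (S : Finset Ω) (hS : S.Nonempty) (f : Ω → α) (F : α → β) (G : α → γ)
    (Z : Finset α) (hZ : ∀ ω ∈ S, f ω ∈ Z) (T : Finset (β × γ)) (hT : ∀ z ∈ Z, (F z, G z) ∈ T) :
    cent S (fun ω => F (f ω)) (fun ω => G (f ω)) =
      e8_H T Prod.snd (e8_m Z (fun z => (F z, G z)) (law S f)) := by
  classical
  have hN : 0 < S.card := card_pos.2 hS
  have hx : e8_m Z (fun z => (F z, G z)) (law S f) =
      fun u => ((fib S (fun ω => (F (f ω), G (f ω))) u).card : ℝ) / (S.card : ℝ) := by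
    funext u
    exact e8_m_law S f Z hZ (fun z => (F z, G z)) u
  rw [hx]
  unfold e8_H
  have hk : ∀ ω ∈ S, (F (f ω), G (f ω)) ∈ T := fun ω hω => hT _ (hZ ω hω)
  have h1 : ∀ u ∈ T, e8_L (((fib S (fun ω => (F (f ω), G (f ω))) u).card : ℝ) / (S.card : ℝ))
      (e8_y T Prod.snd (fun u => ((fib S (fun ω => (F (f ω), G (f ω))) u).card : ℝ) / (S.card : ℝ)) u.2) =
      ((fib S (fun ω => (F (f ω), G (f ω))) u).card : ℝ) *
        (Real.log ((fib S (fun ω => G (f ω)) u.2).card : ℝ) -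
          Real.log ((fib S (fun ω => (F (f ω), G (f ω))) u).card : ℝ)) / (S.card : ℝ) := by
    intro u _
    rw [e8_y_law S (fun ω => (F (f ω), G (f ω))) T Prod.snd hk u.2]
    refine e8_L_nat hN ?_
    refine card_le_card ?_
    intro ω hω
    have h2 := e8_mem_fib.1 hω
    refine e8_mem_fib.2 ⟨h2.1, ?_⟩
    show G (f ω) = u.2
    rw [← h2.2]
  rw [sum_congr rfl h1, ← sum_div]
  have h3 : ∑ u ∈ T, ((fib S (fun ω => (F (f ω), G (f ω))) u).card : ℝ) *
        (Real.log ((fib S (fun ω => G (f ω)) u.2).card : ℝ) -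
          Real.log ((fib S (fun ω => (F (f ω), G (f ω))) u).card : ℝ)) =
      ∑ ω ∈ S, (Real.log ((fib S (fun ω => G (f ω)) (G (f ω))).card : ℝ) -
          Real.log ((fib S (fun ω => (F (f ω), G (f ω))) (F (f ω), G (f ω))).card : ℝ)) := by
    rw [← sum_fiberwise_of_maps_to (s := S) (t := T) (g := fun ω => (F (f ω), G (f ω))) hk
      (fun ω => (Real.log ((fib S (fun ω => G (f ω)) (G (f ω))).card : ℝ) -
          Real.log ((fib S (fun ω => (F (f ω), G (f ω))) (F (f ω), G (f ω))).card : ℝ)))]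
    refine sum_congr rfl (fun u _ => ?_)
    have h4 : ∀ ω ∈ S.filter (fun ω => (F (f ω), G (f ω)) = u),
        (Real.log ((fib S (fun ω => G (f ω)) (G (f ω))).card : ℝ) -
          Real.log ((fib S (fun ω => (F (f ω), G (f ω))) (F (f ω), G (f ω))).card : ℝ)) =
        (Real.log ((fib S (fun ω => G (f ω)) u.2).card : ℝ) -
          Real.log ((fib S (fun ω => (F (f ω), G (f ω))) u).card : ℝ)) := by
      intro ω hω
      have h5 := (mem_filter.1 hω).2
      rw [h5, ← h5]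
    rw [sum_congr rfl h4, sum_const, nsmul_eq_mul, e8_filter]
  rw [h3]
  unfold cent
  rw [e8_ent, e8_ent, ← sub_div, ← sum_sub_distrib]
  congr 1
  refine sum_congr rfl (fun ω _ => ?_)
  ring

theorem e8_m_tot {α δ : Type} (Z : Finset α) (h : α → δ) (p : α → ℝ) (T : Finset δ) (hT : ∀ z ∈ Z, h z ∈ T) :
    ∑ u ∈ T, e8_m Z h p u = ∑ z ∈ Z, p z := by
  classical
  unfold e8_m
  exact sum_fiberwise_of_maps_to hT p

theorem e8_m_add {α δ : Type} (Z : Finset α) (h : α → δ) (p q : α → ℝ) :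
    e8_m Z h (fun z => p z + q z) = fun u => e8_m Z h p u + e8_m Z h q u := by
  funext u
  unfold e8_m
  exact sum_add_distrib

theorem e8_m_nonneg {α δ : Type} (Z : Finset α) (h : α → δ) (p : α → ℝ) (hp : ∀ z, 0 ≤ p z) (u : δ) :
    0 ≤ e8_m Z h p u := by
  classical
  unfold e8_m
  exact sum_nonneg (fun z _ => hp z)

theorem e8_law_tot {Ω α : Type} (S : Finset Ω) (hS : S.Nonempty) (f : Ω → α) (Z : Finset α)
    (hZ : ∀ ω ∈ S, f ω ∈ Z) : ∑ z ∈ Z, law S f z = 1 := by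
  classical
  have hN : (S.card : ℝ) ≠ 0 := by exact_mod_cast (card_pos.2 hS).ne'
  unfold law
  rw [← sum_div]
  have h1 := card_eq_sum_card_fiberwise (s := S) (t := Z) (f := f) hZ
  have h2 : ∑ z ∈ Z, ((S.filter (fun ω => f ω = z)).card : ℝ) = (S.card : ℝ) := by
    rw [h1]
    push_cast
    rfl
  rw [h2, div_self hN]

theorem e8_law_nonneg {Ω α : Type} (S : Finset Ω) (f : Ω → α) (z : α) : 0 ≤ law S f z := by
  unfold law
  exact div_nonneg (Nat.cast_nonneg _) (Nat.cast_nonneg _)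

theorem e8_rho {ρ : ℝ} (h0 : 0 ≤ ρ) : e8_L ρ 1 ≤ Real.sqrt ρ := by
  rcases h0.eq_or_lt with h | h
  · rw [← h]; simp [e8_L]
  · obtain ⟨v, hv⟩ : ∃ v, v = Real.sqrt (Real.sqrt ρ) := ⟨_, rfl⟩
    have hv0 : 0 < v := by
      rw [hv]
      exact Real.sqrt_pos.2 (Real.sqrt_pos.2 h)
    have hv2 : v ^ 2 = Real.sqrt ρ := by rw [hv]; exact Real.sq_sqrt (Real.sqrt_nonneg _)
    have hv4 : v ^ 4 = ρ := by
      have : v ^ 4 = (v ^ 2) ^ 2 := by ring
      rw [this, hv2]
      exact Real.sq_sqrt h0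
    unfold e8_L
    rw [← hv2, ← hv4, Real.log_one, mul_zero, Real.log_pow]
    have h1 := Real.one_sub_inv_le_log_of_pos hv0
    have h2 : v ^ 4 * ((4 : ℕ) * (1 - v⁻¹)) ≤ v ^ 4 * ((4 : ℕ) * Real.log v) :=
      mul_le_mul_of_nonneg_left (mul_le_mul_of_nonneg_left h1 (by positivity)) (by positivity)
    have h3 : v ^ 4 * (((4 : ℕ) : ℝ) * (1 - v⁻¹)) = 4 * v ^ 4 - 4 * v ^ 3 := by
      push_cast
      field_simp
    rw [h3] at h2
    nlinarith [mul_nonneg (mul_nonneg hv0.le hv0.le) (sq_nonneg (2 * v - 1))]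

theorem e8_rho2 {ρ : ℝ} (h1 : ρ < 1) : e8_L (1 - ρ) 1 ≤ ρ := by
  unfold e8_L
  rw [Real.log_one, mul_zero]
  have h2 := Real.one_sub_inv_le_log_of_pos (show 0 < 1 - ρ by linarith)
  have h3 := mul_le_mul_of_nonneg_left h2 (show 0 ≤ 1 - ρ by linarith)
  have h4 : (1 - ρ) * (1 - (1 - ρ)⁻¹) = -ρ := by
    have : (1 - ρ) ≠ 0 := by linarith
    field_simp
    ring
  rw [h4] at h3
  linarith

theorem st_E8 : ST_E8 := by
  classical
  intro Ω Ω' α β γ S S' f f' F G K x hS hS' hK hA hl hx1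
  obtain ⟨Z, hZdef⟩ : ∃ Z : Finset α, Z = S.image f ∪ S'.image f' := ⟨_, rfl⟩
  have hZ : ∀ ω ∈ S, f ω ∈ Z := fun ω hω => by
    rw [hZdef]
    exact mem_union_left _ (mem_image_of_mem f hω)
  have hZ' : ∀ ω ∈ S', f' ω ∈ Z := fun ω hω => by
    rw [hZdef]
    exact mem_union_right _ (mem_image_of_mem f' hω)
  obtain ⟨T, hTdef⟩ : ∃ T : Finset (β × γ), T = Z.image (fun z => (F z, G z)) := ⟨_, rfl⟩
  have hT : ∀ z ∈ Z, (F z, G z) ∈ T := fun z hz => by
    rw [hTdef]
    exact mem_image_of_mem (fun z => (F z, G z)) hz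
  have hcard : ∀ c, (fib T Prod.snd c).card ≤ K := by
    intro c
    obtain ⟨A, hAK, hAF⟩ := hA c
    refine le_trans ?_ hAK
    refine card_le_card_of_injOn Prod.fst ?_ ?_
    · intro u hu
      have h1 := mem_filter.1 (show u ∈ T.filter (fun u => u.2 = c) from hu)
      rw [hTdef] at h1
      obtain ⟨z, _, hzu⟩ := mem_image.1 h1.1
      have h2 : G z = c := by
        rw [← h1.2, ← hzu]
      rw [← hzu]
      exact hAF z h2
    · intro u hu v hv huv
      have h1 := mem_filter.1 (show u ∈ T.filter (fun u => u.2 = c) from hu)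
      have h2 := mem_filter.1 (show v ∈ T.filter (fun u => u.2 = c) from hv)
      exact Prod.ext huv (h1.2.trans h2.2.symm)
  -- the common part and the remainders
  obtain ⟨P, hP⟩ : ∃ P : α → ℝ, P = law S f := ⟨_, rfl⟩
  obtain ⟨P', hP'⟩ : ∃ P' : α → ℝ, P' = law S' f' := ⟨_, rfl⟩
  have hPn : ∀ z, 0 ≤ P z := fun z => by rw [hP]; exact e8_law_nonneg S f z
  have hPn' : ∀ z, 0 ≤ P' z := fun z => by rw [hP']; exact e8_law_nonneg S' f' z
  have hkn : ∀ z, 0 ≤ min (P z) (P' z) := fun z => le_min (hPn z) (hPn' z)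
  have hrn : ∀ z, 0 ≤ P z - min (P z) (P' z) := fun z => sub_nonneg.2 (min_le_left _ _)
  have hrn' : ∀ z, 0 ≤ P' z - min (P z) (P' z) := fun z => sub_nonneg.2 (min_le_right _ _)
  have hdec : P = fun z => min (P z) (P' z) + (P z - min (P z) (P' z)) := by funext z; ring
  have hdec' : P' = fun z => min (P z) (P' z) + (P' z - min (P z) (P' z)) := by funext z; ring
  have htP : ∑ z ∈ Z, P z = 1 := by rw [hP]; exact e8_law_tot S hS f Z hZ
  have htP' : ∑ z ∈ Z, P' z = 1 := by rw [hP']; exact e8_law_tot S' hS' f' Z hZ'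
  obtain ⟨ρ, hρ⟩ : ∃ ρ : ℝ, ρ = ∑ z ∈ Z, (P z - min (P z) (P' z)) := ⟨_, rfl⟩
  have hρ0 : 0 ≤ ρ := by rw [hρ]; exact sum_nonneg (fun z _ => hrn z)
  have hk : ∑ z ∈ Z, min (P z) (P' z) = 1 - ρ := by
    rw [hρ, sum_sub_distrib, htP]
    ring
  have hρ' : ∑ z ∈ Z, (P' z - min (P z) (P' z)) = ρ := by
    rw [sum_sub_distrib, htP', hk]
    ring
  have hl1 : l1 S f S' f' = 2 * ρ := by
    have h1 : l1 S f S' f' = ∑ z ∈ Z, |P z - P' z| := by
      rw [hZdef, hP, hP']
      rfl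
    have h2 : ∀ z ∈ Z, |P z - P' z| = (P z - min (P z) (P' z)) + (P' z - min (P z) (P' z)) := by
      intro z _
      rcases le_total (P z) (P' z) with h | h
      · rw [min_eq_left h, abs_of_nonpos (by linarith)]
        ring
      · rw [min_eq_right h, abs_of_nonneg (by linarith)]
        ring
    rw [h1, sum_congr rfl h2, sum_add_distrib, hρ', ← hρ]
    ring
  have hρx : ρ ≤ x / 2 := by linarith
  have hx0 : 0 ≤ x := by linarith
  -- entropies
  have hc := e8_cent S hS f F G Z hZ T hT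
  have hc' := e8_cent S' hS' f' F G Z hZ' T hT
  rw [← hP] at hc
  rw [← hP'] at hc'
  have hm : e8_m Z (fun z => (F z, G z)) P = fun u =>
      e8_m Z (fun z => (F z, G z)) (fun z => min (P z) (P' z)) u +
        e8_m Z (fun z => (F z, G z)) (fun z => P z - min (P z) (P' z)) u := by
    rw [← e8_m_add]
    exact congrArg _ hdec
  have hm' : e8_m Z (fun z => (F z, G z)) P' = fun u =>
      e8_m Z (fun z => (F z, G z)) (fun z => min (P z) (P' z)) u +
        e8_m Z (fun z => (F z, G z)) (fun z => P' z - min (P z) (P' z)) u := by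
    rw [← e8_m_add]
    exact congrArg _ hdec'
  have n1 : ∀ u ∈ T, 0 ≤ e8_m Z (fun z => (F z, G z)) (fun z => min (P z) (P' z)) u :=
    fun u _ => e8_m_nonneg Z _ _ hkn u
  have n2 : ∀ u ∈ T, 0 ≤ e8_m Z (fun z => (F z, G z)) (fun z => P z - min (P z) (P' z)) u :=
    fun u _ => e8_m_nonneg Z _ _ hrn u
  have n3 : ∀ u ∈ T, 0 ≤ e8_m Z (fun z => (F z, G z)) (fun z => P' z - min (P z) (P' z)) u :=
    fun u _ => e8_m_nonneg Z _ _ hrn' u
  have up := e8_H_sub T Prod.snd _ _ n1 n2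
  have lo := e8_H_super T Prod.snd _ _ n1 n3
  have lo0 := e8_H_nonneg T Prod.snd _ n3
  have hr := e8_H_le T Prod.snd _ n2 K hcard
  rw [← hm, ← hc, e8_m_tot Z _ _ T hT, e8_m_tot Z _ _ T hT, hk, ← hρ] at up
  rw [← hm', ← hc'] at lo
  rw [e8_m_tot Z _ _ T hT, ← hρ] at hr
  have e1 : 1 - ρ + ρ = 1 := by ring
  rw [e1] at up
  have b1 := e8_rho hρ0
  have b2 := e8_rho2 (show ρ < 1 by linarith)
  have b3 : Real.sqrt ρ ≤ Real.sqrt x := Real.sqrt_le_sqrt (by linarith)
  have b4 : 0 ≤ Real.log (K : ℝ) := Real.log_nonneg (by exact_mod_cast hK)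
  have b5 : ρ * Real.log K ≤ x * Real.log K := mul_le_mul_of_nonneg_right (by linarith) b4
  have b6 : x * (Real.log K + 1) = x * Real.log K + x := by ring
  rw [b6]
  linarith

end Pool.Agent.Helper70.DK
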